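import Mathlib

namespace Pool.Agent.Results.MP_209919_co.Q2

open Finset

def Good (n : ℕ) (ρ : ℝ) : Prop :=
  ∃ X : Set (Fin n → ℝ), X.Infinite ∧ (∀ x ∈ X, ∑ i, x i ^ 2 = ρ ^ 2) ∧
    (∀ x ∈ X, ∀ y ∈ X, ∃ r : ℚ, ∑ i, (x i - y i) ^ 2 = (r : ℝ) ^ 2) ∧
    ∀ (a : Fin n → ℝ) (b : ℝ), (∀ x ∈ X, ∑ i, a i * x i = b) → a = 0

noncomputable def P (ρ : ℝ) (t : ℝ) : Fin 2 → ℝ :=
  ![ρ * (8 * ρ ^ 2 * t ^ 2 / (ρ ^ 2 + t ^ 2) ^ 2 - 1),
    4 * ρ ^ 2 * t * (ρ ^ 2 - t ^ 2) / (ρ ^ 2 + t ^ 2) ^ 2]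

theorem P_dist (ρ : ℝ) (hρ : 0 < ρ) (t s : ℝ) :
    ∑ i, (P ρ t i - P ρ s i) ^ 2 =
      (4 * ρ ^ 2 * (s - t) * (ρ ^ 2 + t * s) / ((ρ ^ 2 + t ^ 2) * (ρ ^ 2 + s ^ 2))) ^ 2 := by
  have h1 : ρ ^ 2 + t ^ 2 ≠ 0 := by positivity
  have h2 : ρ ^ 2 + s ^ 2 ≠ 0 := by positivity
  simp only [Fin.sum_univ_two, P, Matrix.cons_val_zero, Matrix.cons_val_one]
  field_simp
  ring

theorem P_norm (ρ : ℝ) (hρ : 0 < ρ) (t : ℝ) : ∑ i, (P ρ t i) ^ 2 = ρ ^ 2 := by
  have h1 : ρ ^ 2 + t ^ 2 ≠ 0 := by positivity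
  simp only [Fin.sum_univ_two, P, Matrix.cons_val_zero, Matrix.cons_val_one]
  field_simp
  ring

theorem good_two (ρ : ℝ) (hρ : 0 < ρ) (q : ℚ) (hq : ρ ^ 2 = q) : Good 2 ρ := by
  refine ⟨Set.range fun t : ℚ => P ρ t, ?_, ?_, ?_, ?_⟩
  · have hinj : Function.Injective fun n : ℕ => P ρ ((n : ℚ) : ℝ) := by
      intro m n hmn
      have h := P_dist ρ hρ ((m : ℚ) : ℝ) ((n : ℚ) : ℝ)
      simp only at hmn
      rw [hmn] at h
      simp only [sub_self, ne_eq, OfNat.ofNat_ne_zero, not_false_eq_true, zero_pow,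
        sum_const_zero, Rat.cast_natCast] at h
      have h0 := pow_eq_zero_iff (two_ne_zero) |>.1 h.symm
      have h1 : ρ ^ 2 + (m : ℝ) ^ 2 ≠ 0 := by positivity
      have h2 : ρ ^ 2 + (n : ℝ) ^ 2 ≠ 0 := by positivity
      have h3 : ρ ^ 2 + (m : ℝ) * n ≠ 0 := by positivity
      have h4 : 4 * ρ ^ 2 ≠ 0 := by positivity
      rw [div_eq_zero_iff] at h0
      rcases h0 with h0 | h0
      · have : (n : ℝ) - m = 0 := by
          rcases mul_eq_zero.1 h0 with h5 | h5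
          · exact (mul_eq_zero.1 h5).resolve_left h4
          · exact absurd h5 h3
        have : (m : ℝ) = n := by linarith
        exact_mod_cast this
      · exact absurd h0 (mul_ne_zero h1 h2)
    refine (Set.infinite_range_of_injective hinj).mono ?_
    rintro _ ⟨n, rfl⟩
    exact ⟨(n : ℚ), rfl⟩
  · rintro _ ⟨t, rfl⟩
    exact P_norm ρ hρ t
  · rintro _ ⟨t, rfl⟩ _ ⟨s, rfl⟩
    refine ⟨4 * q * (s - t) * (q + t * s) / ((q + t ^ 2) * (q + s ^ 2)), ?_⟩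
    rw [P_dist ρ hρ, hq]
    push_cast
    rfl
  · intro a b h
    have h0 := h _ ⟨0, rfl⟩
    have h1 := h _ ⟨q + 1, rfl⟩
    have h2 := h _ ⟨-(q + 1), rfl⟩
    simp only [Fin.sum_univ_two, P, Matrix.cons_val_zero, Matrix.cons_val_one] at h0 h1 h2
    push_cast at h0 h1 h2
    rw [← hq] at h1 h2
    set t := ρ ^ 2 + 1 with ht
    have hρ2 : 0 < ρ ^ 2 := by positivity
    have htpos : 0 < t := by positivity
    have hd : 0 < (ρ ^ 2 + t ^ 2) ^ 2 := by positivity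
    have hne : ρ ^ 2 - t ^ 2 ≠ 0 := by rw [ht]; nlinarith
    rw [neg_sq] at h2
    have e1 : a 1 * (4 * ρ ^ 2 * t * (ρ ^ 2 - t ^ 2) / (ρ ^ 2 + t ^ 2) ^ 2) = 0 := by
      have : 4 * ρ ^ 2 * -t * (ρ ^ 2 - t ^ 2) / (ρ ^ 2 + t ^ 2) ^ 2 =
          -(4 * ρ ^ 2 * t * (ρ ^ 2 - t ^ 2) / (ρ ^ 2 + t ^ 2) ^ 2) := by ring
      rw [this] at h2
      linarith
    have ha1 : a 1 = 0 := by
      refine (mul_eq_zero.1 e1).resolve_right ?_
      exact div_ne_zero (mul_ne_zero (by positivity) hne) hd.ne'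
    have e0 : a 0 * (ρ * (8 * ρ ^ 2 * t ^ 2 / (ρ ^ 2 + t ^ 2) ^ 2)) = 0 := by
      rw [ha1] at h0 h1
      simp at h0
      linarith
    have ha0 : a 0 = 0 := by
      refine (mul_eq_zero.1 e0).resolve_right ?_
      positivity
    funext i
    fin_cases i
    · exact ha0
    · exact ha1

theorem good_succ (n : ℕ)
    (ih : ∀ ρ : ℝ, 0 < ρ → ∀ q : ℚ, ρ ^ 2 = q → Good n ρ)
    (ρ : ℝ) (hρ : 0 < ρ) (q : ℚ) (hq : ρ ^ 2 = q) : Good (n + 1) ρ := by
  obtain ⟨s, hs0, hs1⟩ := exists_rat_btwn (show (0 : ℝ) < 2 * ρ by positivity)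
  set h : ℝ := (s : ℝ) ^ 2 / (2 * ρ) with hh
  have hhpos : 0 < h := by positivity
  have hhs : h < s := by
    rw [hh, div_lt_iff₀ (by positivity)]; nlinarith
  have hr : 0 < (s : ℝ) ^ 2 - h ^ 2 := by nlinarith
  have hρh : 2 * ρ * h = (s : ℝ) ^ 2 := by rw [hh]; field_simp
  obtain ⟨X, hXi, hXn, hXd, hXh⟩ := ih (Real.sqrt ((s : ℝ) ^ 2 - h ^ 2)) (Real.sqrt_pos.2 hr)
    (s ^ 2 - s ^ 4 / (4 * q)) (by
      rw [Real.sq_sqrt hr.le, hh]
      push_cast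
      rw [← hq]
      field_simp
      ring)
  rw [Real.sq_sqrt hr.le] at hXn
  refine ⟨insert (Fin.cons ρ 0) ((fun x : Fin n → ℝ => (Fin.cons (ρ - h) x : Fin (n + 1) → ℝ)) '' X),
    ?_, ?_, ?_, ?_⟩
  · refine Set.Infinite.mono (Set.subset_insert _ _) (hXi.image ?_)
    intro x _ y _ hxy
    exact (Fin.cons_injective2.eq_iff.1 hxy).2
  · rintro _ (rfl | ⟨x, hx, rfl⟩)
    · simp [Fin.sum_univ_succ]
    · simp only [Fin.sum_univ_succ, Fin.cons_zero, Fin.cons_succ, hXn x hx]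
      nlinarith
  · rintro _ (rfl | ⟨x, hx, rfl⟩) _ (rfl | ⟨y, hy, rfl⟩)
    · exact ⟨0, by simp⟩
    · refine ⟨s, ?_⟩
      simp only [Fin.sum_univ_succ, Fin.cons_zero, Fin.cons_succ, Pi.zero_apply, zero_sub,
        neg_sq, hXn y hy]
      ring
    · refine ⟨s, ?_⟩
      simp only [Fin.sum_univ_succ, Fin.cons_zero, Fin.cons_succ, Pi.zero_apply, sub_zero,
        hXn x hx]
      ring
    · obtain ⟨r, hr⟩ := hXd x hx y hy
      refine ⟨r, ?_⟩
      simp only [Fin.sum_univ_succ, Fin.cons_zero, Fin.cons_succ, hr]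
      ring
  · intro a b hab
    have h1 := hab _ (Set.mem_insert _ _)
    have h2 : ∀ x ∈ X, ∑ i, a (Fin.succ i) * x i = b - a 0 * (ρ - h) := by
      intro x hx
      have := hab _ (Set.mem_insert_of_mem _ ⟨x, hx, rfl⟩)
      simp only [Fin.sum_univ_succ, Fin.cons_zero, Fin.cons_succ] at this
      linarith
    have h3 := hXh _ _ h2
    have h4 : ∀ i, a (Fin.succ i) = 0 := fun i => congrFun h3 i
    obtain ⟨x, hx⟩ := hXi.nonempty
    have h5 := h2 x hx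
    simp only [Fin.sum_univ_succ, Fin.cons_zero, Fin.cons_succ, h4, zero_mul,
      sum_const_zero] at h1 h5
    have h6 : a 0 * h = 0 := by linarith
    have h7 : a 0 = 0 := (mul_eq_zero.1 h6).resolve_right hhpos.ne'
    funext i
    refine Fin.cases h7 h4 i

theorem good (n : ℕ) : ∀ ρ : ℝ, 0 < ρ → ∀ q : ℚ, ρ ^ 2 = q → Good (n + 2) ρ := by
  induction n with
  | zero => exact good_two
  | succ n ih => exact good_succ (n + 2) ih

theorem sq_rat {E : Type*} [NormedAddCommGroup E] [InnerProductSpace ℝ E] [FiniteDimensional ℝ E]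
    (c : E) (ρ : ℝ) (X : Set E) (hX : X ⊆ Metric.sphere c ρ) (hne : X.Nonempty)
    (hr : ∀ x ∈ X, ∀ y ∈ X, x ≠ y → ∃ r : ℚ, dist x y = r)
    (hh : ¬ ∃ (a : E) (b : ℝ), a ≠ 0 ∧ ∀ x ∈ X, inner ℝ a x = b) :
    ∃ q : ℚ, ρ ^ 2 = q := by
  obtain ⟨x0, hx0⟩ := hne
  have hr' : ∀ x ∈ X, ∀ y ∈ X, ∃ r : ℚ, ‖x - y‖ = r := by
    intro x hx y hy
    by_cases h : x = y
    · exact ⟨0, by simp [h]⟩
    · simpa [dist_eq_norm] using hr x hx y hy h
  have horth : ∀ a : E, (∀ x ∈ X, inner ℝ a (x - x0) = 0) → a = 0 := by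
    intro a ha
    by_contra hne
    exact hh ⟨a, inner ℝ a x0, hne, fun x hx => by
      have := ha x hx
      rw [inner_sub_right] at this
      linarith⟩
  have hg : ∀ x ∈ X, ∀ y ∈ X, ∃ r : ℚ, inner ℝ (x - x0) (y - x0) = (r : ℝ) := by
    intro x hx y hy
    obtain ⟨r1, h1⟩ := hr' x hx x0 hx0
    obtain ⟨r2, h2⟩ := hr' y hy x0 hx0
    obtain ⟨r3, h3⟩ := hr' x hx y hy
    refine ⟨(r1 ^ 2 + r2 ^ 2 - r3 ^ 2) / 2, ?_⟩
    have := norm_sub_sq_real (x - x0) (y - x0)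
    rw [show x - x0 - (y - x0) = x - y by abel, h1, h2, h3] at this
    push_cast
    linarith
  have hw : ∀ y ∈ X, ∃ r : ℚ, inner ℝ (c - x0) (y - x0) = (r : ℝ) := by
    intro y hy
    obtain ⟨r2, h2⟩ := hr' y hy x0 hx0
    refine ⟨r2 ^ 2 / 2, ?_⟩
    have := norm_sub_sq_real (c - x0) (y - x0)
    have e1 : ‖c - x0‖ = ρ := by
      rw [norm_sub_rev]; simpa [dist_eq_norm] using hX hx0
    have e2 : ‖c - y‖ = ρ := by
      rw [norm_sub_rev]; simpa [dist_eq_norm] using hX hy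
    rw [show c - x0 - (y - x0) = c - y by abel, h2, e1, e2] at this
    push_cast
    linarith
  have hspan : Submodule.span ℝ ((fun x => x - x0) '' X) = ⊤ := by
    rw [← Submodule.orthogonal_eq_bot_iff, eq_bot_iff]
    intro a ha
    rw [Submodule.mem_bot]
    refine horth a fun x hx => ?_
    rw [real_inner_comm]
    exact (Submodule.mem_orthogonal _ _).1 ha _ (Submodule.subset_span ⟨x, hx, rfl⟩)
  have hmem : c - x0 ∈ Submodule.span ℝ ((fun x => x - x0) '' X) := by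
    rw [hspan]; trivial
  obtain ⟨n, f, g, hfg⟩ := Submodule.mem_span_set'.1 hmem
  obtain ⟨φ, hφ⟩ := LinearMap.exists_leftInverse_of_injective (Algebra.linearMap ℚ ℝ)
    (LinearMap.ker_eq_bot.2 (algebraMap ℚ ℝ).injective)
  have hφq : ∀ r : ℚ, φ (r : ℝ) = r := fun r => by
    simpa using LinearMap.congr_fun hφ r
  choose z hz hzg using fun i => (g i).2
  have hww : c - x0 = ∑ i, ((φ (f i) : ℚ) : ℝ) • (z i - x0) := by
    rw [← sub_eq_zero]
    refine horth _ fun y hy => ?_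
    obtain ⟨r, hr⟩ := hw y hy
    choose G hG using fun i => hg (z i) (hz i) y hy
    have e1 : ∑ i, f i * (G i : ℝ) = r := by
      rw [← hr, ← hfg, sum_inner]
      refine Finset.sum_congr rfl fun i _ => ?_
      rw [real_inner_smul_left, ← hzg i, hG i]
    have e2 : ∑ i, φ (f i) * G i = r := by
      rw [← hφq r, ← e1, map_sum]
      refine Finset.sum_congr rfl fun i _ => ?_
      rw [mul_comm (f i), ← Rat.smul_def, map_smul, smul_eq_mul, mul_comm]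
    rw [inner_sub_left, hr, sum_inner, ← e2]
    push_cast
    rw [sub_eq_zero]
    refine Finset.sum_congr rfl fun i _ => ?_
    rw [real_inner_smul_left, hG i]
  choose R hR using fun i => hw (z i) (hz i)
  refine ⟨∑ i, φ (f i) * R i, ?_⟩
  have e1 : ‖c - x0‖ = ρ := by
    rw [norm_sub_rev]; simpa [dist_eq_norm] using hX hx0
  rw [← e1, ← real_inner_self_eq_norm_sq]
  nth_rewrite 2 [hww]
  rw [inner_sum]
  push_cast
  refine Finset.sum_congr rfl fun i _ => ?_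
  rw [real_inner_smul_right, hR i]

theorem result (d : ℕ) (ρ : ℝ) (hρ : 0 < ρ) (c : EuclideanSpace ℝ (Fin d)) :
    (∃ X : Set (EuclideanSpace ℝ (Fin d)), X ⊆ Metric.sphere c ρ ∧ X.Infinite ∧
      (∀ x ∈ X, ∀ y ∈ X, x ≠ y → ∃ r : ℚ, dist x y = r) ∧
      ¬ ∃ (a : EuclideanSpace ℝ (Fin d)) (b : ℝ), a ≠ 0 ∧ ∀ x ∈ X, inner ℝ a x = b) ↔
    2 ≤ d ∧ ∃ q : ℚ, ρ ^ 2 = q := by
  constructor
  · rintro ⟨X, hX, hi, hr, hh⟩
    refine ⟨?_, sq_rat c ρ X hX hi.nonempty hr hh⟩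
    by_contra hd
    apply hi
    refine Set.Finite.subset ?_ hX
    obtain rfl | rfl : d = 0 ∨ d = 1 := by omega
    · exact Set.toFinite _
    · refine Set.Finite.of_finite_image (f := fun x => x 0)
        ((Set.toFinite {c 0 + ρ, c 0 - ρ}).subset ?_) ?_
      · rintro _ ⟨x, hx, rfl⟩
        rw [Metric.mem_sphere, EuclideanSpace.dist_eq] at hx
        simp only [Fin.sum_univ_one, Real.sqrt_sq_eq_abs, abs_abs, Real.dist_eq] at hx
        rcases (abs_eq hρ.le).1 hx with h | h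
        · left; linarith
        · right; simp only [Set.mem_singleton_iff]; linarith
      · intro x _ y _ hxy
        ext i
        fin_cases i
        exact hxy
  · rintro ⟨hd, q, hq⟩
    obtain ⟨n, rfl⟩ : ∃ n, d = n + 2 := ⟨d - 2, by omega⟩
    obtain ⟨X, hXi, hXn, hXd, hXh⟩ := good n ρ hρ q hq
    refine ⟨(fun x => c + WithLp.toLp 2 x) '' X, ?_, ?_, ?_, ?_⟩
    · rintro _ ⟨x, hx, rfl⟩
      rw [Metric.mem_sphere, EuclideanSpace.dist_eq]
      simp only [PiLp.add_apply, Real.dist_eq, add_sub_cancel_left, sq_abs, hXn x hx]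
      exact Real.sqrt_sq hρ.le
    · refine hXi.image ?_
      intro x _ y _ hxy
      simpa using hxy
    · rintro _ ⟨x, hx, rfl⟩ _ ⟨y, hy, rfl⟩ _
      obtain ⟨r, hr⟩ := hXd x hx y hy
      refine ⟨|r|, ?_⟩
      rw [dist_add_left, EuclideanSpace.dist_eq]
      simp only [Real.dist_eq, sq_abs, hr]
      rw [Real.sqrt_sq_eq_abs]
      push_cast
      rfl
    · rintro ⟨a, b, ha, hab⟩
      apply ha
      have := hXh (fun i => a i) (b - inner ℝ a c) fun x hx => by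
        have h := hab _ ⟨x, hx, rfl⟩
        rw [inner_add_right] at h
        have e : inner ℝ a (WithLp.toLp 2 x : EuclideanSpace ℝ (Fin (n + 2))) =
            ∑ i, a i * x i := by
          simp [PiLp.inner_apply, mul_comm]
        linarith
      ext i
      exact congrFun this i

end Pool.Agent.Results.MP_209919_co.Q2
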